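import Pool.Agent.helper13.UN.SpecG

/-! Row SFE of project UN, block H (MP_cf4097_nt): the functional equation of the theta series. -/

set_option autoImplicit false

open NumberField Complex

namespace Pool.Agent.UN

theorem SFE_Ga {K : Type} [Field K] [NumberField K] (y : InfinitePlace K → ℝ) (x β : K) :
    Ga (fun w => 1 / y w) (x / β) = Ga (fun w => 1 / ((w β) ^ 2 * y w)) x := by
  unfold Ga
  congr 3
  refine Finset.sum_congr rfl fun w _ => ?_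
  show (w.mult : ℝ) * (1 / y w) * (w (x / β)) ^ 2 = (w.mult : ℝ) * (1 / ((w β) ^ 2 * y w)) * (w x) ^ 2
  rw [map_div₀, div_pow, one_div, one_div, mul_inv]
  ring

theorem SFE (hPTF : PTF_stmt) (hGEN : GEN_stmt) (hGSA : GSA_stmt) (hGS0 : GS0_stmt) (hAIF : AIF_stmt) : SFE_stmt := by
  intro K _ _ b b' f F β ν x₀ m e y hb hb' hf hF hAd hbf hb'f hβ hspan hν hν1 hx₀ hx₀1 hy
  have hβK : ((β : 𝓞 K) : K) ≠ 0 := by
    intro h
    exact hβ (RingOfIntegers.coe_eq_zero_iff.mp h)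
  obtain ⟨hη, -, hdiff⟩ := hGEN K b b' f β ν x₀ hb hb' hf hbf hb'f hβ hspan hν hν1 hx₀ hx₀1
  obtain ⟨-, hg2, -⟩ := hGS0 K f F hf hF
  obtain ⟨hmul, -, hne, -⟩ := hAIF K (fun _ => 0) m e hAd
  have hPβ : Pm m e ((β : 𝓞 K) : K) ≠ 0 := (hne _ hβK).2
  rw [hPTF K b b' f F β ν m e y hb hb' hf hF hAd hbf hβ hspan hν hν1 hy]
  obtain ⟨η, hηd⟩ : ∃ η : K, η = ((ν * x₀ : 𝓞 K) : K) / ((β : 𝓞 K) : K) := ⟨_, rfl⟩
  rw [← hηd] at hη hdiff ⊢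
  have hterm : ∀ x : b', gs f F (((ν * (x : 𝓞 K) : 𝓞 K) : K) / ((β : 𝓞 K) : K)) *
      (starRingEnd ℂ) (Pm m e (((x : 𝓞 K) : K) / ((β : 𝓞 K) : K))) *
      (Ga (fun w => 1 / y w) (((x : 𝓞 K) : K) / ((β : 𝓞 K) : K)) : ℂ) =
      gs f F η / (starRingEnd ℂ) (Pm m e ((β : 𝓞 K) : K)) *
        (starRingEnd ℂ) (F (x : 𝓞 K) * Pm m e ((x : 𝓞 K) : K) *
          (Ga (fun w => 1 / ((w ((β : 𝓞 K) : K)) ^ 2 * y w)) ((x : 𝓞 K) : K) : ℂ)) := by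
    intro x
    have h1 : gs f F (((ν * (x : 𝓞 K) : 𝓞 K) : K) / ((β : 𝓞 K) : K)) = (starRingEnd ℂ) (F (x : 𝓞 K)) * gs f F η := by
      rw [hg2 _ _ (hdiff (x : 𝓞 K) x.2)]
      exact hGSA K f F η hf hF hη (x : 𝓞 K)
    have h2 : Pm m e (((x : 𝓞 K) : K) / ((β : 𝓞 K) : K)) = Pm m e ((x : 𝓞 K) : K) / Pm m e ((β : 𝓞 K) : K) := by
      rw [eq_div_iff hPβ, ← hmul, div_mul_cancel₀ _ hβK]
    rw [h1, h2, SFE_Ga, map_div₀, map_mul, map_mul, Complex.conj_ofReal]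
    ring
  rw [tsum_congr hterm, tsum_mul_left]
  unfold Sb
  rw [Complex.conj_tsum]
  have hc : (starRingEnd ℂ) (Pm m e ((β : 𝓞 K) : K)) ≠ 0 := by
    rw [Ne, map_eq_zero]
    exact hPβ
  rw [← div_div]
  ring

end Pool.Agent.UN
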