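import Pool.Agent.helper1.UN.SpecU

/-! Row VHC of project UN, block H (MP_cf4097_nt): continuity and decay of the integral of the theta series. -/

set_option autoImplicit false

open NumberField Complex MeasureTheory NumberField.Units NumberField.Units.dirichletUnitTheorem

open scoped Classical

namespace Pool.Agent.UN

/-- the terms are continuous functions of `(ρ, l)`, `ρ > 0` -/
theorem VHC_cont (hVLV : VLV_stmt) (K : Type) [Field K] [NumberField K] (χ : Ideal (𝓞 K) → ℂ)
    (τ : InfinitePlace K → ℝ) (a : InfinitePlace K → ℕ) (hχ : χ ⊥ = 0) (x : 𝓞 K) :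
    ContinuousOn (fun p : ℝ × logSpace K => tq χ τ a (Yl p.1 p.2) x) {p | 0 < p.1} := by
  obtain ⟨-, -, -, -, -, hlc, hpos⟩ := hVLV K
  by_cases hx : x = 0
  · have h0 : (fun p : ℝ × logSpace K => tq χ τ a (Yl p.1 p.2) x) = fun _ => 0 := by
      funext p
      unfold tq
      rw [hx, Ideal.span_singleton_eq_bot.mpr rfl, hχ, zero_mul]
    rw [h0]
    exact continuousOn_const
  · have hxK : ((x : 𝓞 K) : K) ≠ 0 := fun h => hx (RingOfIntegers.coe_eq_zero_iff.mp h)
    have hY : ∀ w : InfinitePlace K, Continuous fun p : ℝ × logSpace K => (w (x : K)) ^ 2 * Yl p.1 p.2 w := by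
      intro w
      unfold Yl
      exact continuous_const.mul (continuous_fst.mul (Real.continuous_exp.comp
        (continuous_const.mul ((hlc w).comp continuous_snd))))
    unfold tq QT
    refine continuousOn_const.mul (ContinuousOn.mul ?_ ?_)
    · refine continuousOn_finset_prod _ fun w _ => ?_
      intro p hp
      refine ContinuousAt.continuousWithinAt ?_
      refine ContinuousAt.cpow ?_ continuousAt_const ?_
      · exact (Complex.continuous_ofReal.comp (hY w)).continuousAt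
      · rw [Complex.ofReal_mem_slitPlane]
        exact mul_pos (pow_pos (InfinitePlace.pos_iff.mpr hxK) 2) ((hpos p.1 p.2 hp).1 w)
    · refine (Complex.continuous_ofReal.comp (Real.continuous_exp.comp (Continuous.neg ?_))).continuousOn
      refine continuous_const.mul (continuous_finset_sum _ fun w _ => ?_)
      exact continuous_const.mul (hY w)

theorem VHC (hVQD : VQD_stmt) (hVLB : VLB_stmt) (hVLV : VLV_stmt) : VHC_stmt := by
  intro K _ _ b χ τ a F hb hχ1 hχ0 hF
  obtain ⟨q, C, hq, hC, hbd⟩ := hVQD K χ τ a F hχ1 hχ0 hF.bdd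
  obtain ⟨hSq, hsum⟩ := hVLB K
  have hvol : volume F < ⊤ := hF.bdd.measure_lt_top
  have hcont := VHC_cont hVLV K χ τ a hχ0
  -- the majorant
  have hsum' : ∀ r : ℝ, 0 < r → Summable (fun x : b => C * Real.exp (-(q * r * Sq (x : 𝓞 K)))) :=
    fun r hr => (hsum b (q * r) hb (mul_pos hq hr)).mul_left C
  have hle : ∀ r ρ : ℝ, 0 < r → r ≤ ρ → ∀ l ∈ F, ∀ x : b,
      ‖tq χ τ a (Yl ρ l) (x : 𝓞 K)‖ ≤ C * Real.exp (-(q * r * Sq (x : 𝓞 K))) := by
    intro r ρ hr hρ l hl x
    have h1 := hbd ρ l (x : 𝓞 K) (hr.trans_le hρ) hl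
    by_cases hx : (x : 𝓞 K) = 0
    · rw [if_pos hx] at h1
      exact h1.trans (by positivity)
    · rw [if_neg hx] at h1
      refine h1.trans (mul_le_mul_of_nonneg_left (Real.exp_le_exp.mpr (neg_le_neg ?_)) (by linarith))
      have h2 : 0 ≤ Sq (x : 𝓞 K) := zero_le_one.trans (hSq _ hx)
      exact mul_le_mul_of_nonneg_right (mul_le_mul_of_nonneg_left hρ hq.le) h2
  have hTh : ∀ r ρ : ℝ, 0 < r → r ≤ ρ → ∀ l ∈ F,
      ‖Th0 b χ τ a (Yl ρ l)‖ ≤ ∑' x : b, C * Real.exp (-(q * r * Sq (x : 𝓞 K))) := by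
    intro r ρ hr hρ l hl
    unfold Th0
    exact tsum_of_norm_bounded (hsum' r hr).hasSum (hle r ρ hr hρ l hl)
  -- continuity in `l`
  have hcl : ∀ ρ : ℝ, 0 < ρ → ContinuousOn (fun l => Th0 b χ τ a (Yl ρ l)) F := by
    intro ρ hρ
    unfold Th0
    refine continuousOn_tsum (u := fun x : b => C * Real.exp (-(q * ρ * Sq (x : 𝓞 K)))) (fun x => ?_) (hsum' ρ hρ)
      (fun x l hl => hle ρ ρ hρ le_rfl l hl x)
    refine (hcont (x : 𝓞 K)).comp (f := fun l : logSpace K => ((ρ, l) : ℝ × logSpace K)) ?_ ?_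
    · exact (Continuous.prodMk continuous_const continuous_id).continuousOn
    · intro l _
      exact hρ
  have hmeas : ∀ ρ : ℝ, 0 < ρ → AEStronglyMeasurable (fun l => Th0 b χ τ a (Yl ρ l)) (volume.restrict F) :=
    fun ρ hρ => (hcl ρ hρ).aestronglyMeasurable hF.meas
  refine ⟨fun ρ hρ => ?_, ?_, ?_⟩
  · have hfin : IsFiniteMeasure ((volume : Measure (logSpace K)).restrict F) := by
      refine ⟨?_⟩
      rw [Measure.restrict_apply_univ]
      exact hvol
    exact Integrable.of_bound (hmeas ρ hρ) (∑' x : b, C * Real.exp (-(q * ρ * Sq (x : 𝓞 K))))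
      ((ae_restrict_iff' hF.meas).mpr (Filter.Eventually.of_forall fun l hl => hTh ρ ρ hρ le_rfl l hl))
  · have hIci : ∀ r : ℝ, 0 < r → ContinuousOn (fun ρ : ℝ => ∫ l in F, Th0 b χ τ a (Yl ρ l)) (Set.Ici r) := by
      intro r hr
      refine continuousOn_of_dominated (bound := fun _ => ∑' x : b, C * Real.exp (-(q * r * Sq (x : 𝓞 K))))
        (fun ρ hρ => hmeas ρ (hr.trans_le hρ)) ?_ ?_ ?_
      · intro ρ hρ
        exact (ae_restrict_iff' hF.meas).mpr (Filter.Eventually.of_forall fun l hl => hTh r ρ hr hρ l hl)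
      · exact integrableOn_const hvol.ne
      · refine (ae_restrict_iff' hF.meas).mpr (Filter.Eventually.of_forall fun l hl => ?_)
        unfold Th0
        refine continuousOn_tsum (u := fun x : b => C * Real.exp (-(q * r * Sq (x : 𝓞 K)))) (fun x => ?_) (hsum' r hr)
          (fun x ρ hρ => hle r ρ hr hρ l hl x)
        refine (hcont (x : 𝓞 K)).comp (f := fun ρ : ℝ => ((ρ, l) : ℝ × logSpace K)) ?_ ?_
        · exact (Continuous.prodMk continuous_id continuous_const).continuousOn
        · intro ρ hρ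
          exact hr.trans_le hρ
    intro ρ hρ
    have hρ' : 0 < ρ := hρ
    have h1 := (hIci (ρ / 2) (half_pos hρ')).continuousAt (Ici_mem_nhds (half_lt_self hρ'))
    exact h1.continuousWithinAt
  · intro r
    obtain ⟨M, hM⟩ : ∃ M : ℝ, M = ∑' x : b, C * Real.exp (-(q * 1 * Sq (x : 𝓞 K))) := ⟨_, rfl⟩
    have hbound : ∀ ρ : ℝ, 1 ≤ ρ → ∀ l ∈ F, ‖Th0 b χ τ a (Yl ρ l)‖ ≤ Real.exp (-(q * (ρ - 1))) * M := by
      intro ρ hρ l hl
      unfold Th0
      rw [hM, ← tsum_mul_left]
      refine tsum_of_norm_bounded ((hsum' 1 one_pos).mul_left _).hasSum fun x => ?_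
      have h1 := hbd ρ l (x : 𝓞 K) (by linarith) hl
      by_cases hx : (x : 𝓞 K) = 0
      · rw [if_pos hx] at h1
        exact h1.trans (by positivity)
      · rw [if_neg hx] at h1
        refine h1.trans ?_
        have h2 := hSq _ hx
        have h3 : Real.exp (-(q * ρ * Sq (x : 𝓞 K))) ≤ Real.exp (-(q * (ρ - 1))) * Real.exp (-(q * 1 * Sq (x : 𝓞 K))) := by
          rw [← Real.exp_add]
          refine Real.exp_le_exp.mpr ?_
          have h4 : 0 ≤ q * (ρ - 1) * (Sq (x : 𝓞 K) - 1) :=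
            mul_nonneg (mul_nonneg hq.le (by linarith)) (by linarith)
          nlinarith
        calc C * Real.exp (-(q * ρ * Sq (x : 𝓞 K))) ≤
              C * (Real.exp (-(q * (ρ - 1))) * Real.exp (-(q * 1 * Sq (x : 𝓞 K)))) :=
              mul_le_mul_of_nonneg_left h3 (by linarith)
          _ = Real.exp (-(q * (ρ - 1))) * (C * Real.exp (-(q * 1 * Sq (x : 𝓞 K)))) := by ring
    have hO : (fun ρ : ℝ => ∫ l in F, Th0 b χ τ a (Yl ρ l)) =O[Filter.atTop] (fun ρ : ℝ => Real.exp (-q * ρ)) := by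
      refine Asymptotics.IsBigO.of_bound (Real.exp q * M * (volume : Measure (logSpace K)).real F) ?_
      filter_upwards [Filter.eventually_ge_atTop (1 : ℝ)] with ρ hρ
      refine (norm_setIntegral_le_of_norm_le_const hvol (hbound ρ hρ)).trans (le_of_eq ?_)
      rw [Real.norm_eq_abs, abs_of_pos (Real.exp_pos _)]
      have h5 : Real.exp (-(q * (ρ - 1))) = Real.exp q * Real.exp (-q * ρ) := by
        rw [← Real.exp_add]
        congr 1
        ring
      rw [h5]
      ring
    exact hO.trans (isLittleO_exp_neg_mul_rpow_atTop hq r).isBigO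

end Pool.Agent.UN
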